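import Mathlib
import Pool.Agent.H12.RegSeqB

set_option autoImplicit false

namespace Pool.Agent.Results.MP_8dcfbf_co.PairGap

open Pool.Agent.H12.RegSeq

/-- Regular type B sequences, the one-term sequence (1) included. -/
def Reg (d : List ℕ) : Prop := d = [1] ∨ RegB d

/-- Least length of a regular type B sequence having an ordering of `ks` as a subsequence. -/
noncomputable def bb (ks : List ℕ) : ℕ := sInf {n | ∃ d, Reg d ∧ d.length = n ∧ Has d ks}

theorem reg8 : RegB [62, 31, 15, 8, 4, 2, 1, 1] :=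
  .front [31, 15, 8, 4, 2, 1, 1] 0 7 (.front [15, 8, 4, 2, 1, 1] 0 6 (.front [8, 4, 2, 1, 1] 0 4
    (.front [4, 2, 1, 1] 0 4 (.front [2, 1, 1] 0 3 (.front [1, 1] 0 2 .base
    (by decide) (by decide)) (by decide) (by decide)) (by decide) (by decide))
    (by decide) (by decide)) (by decide) (by decide)) (by decide) (by decide)

theorem reg10 : RegB [62, 57, 4, 1, 1, 1, 1, 8, 16, 25] :=
  .front [57, 4, 1, 1, 1, 1, 8, 16, 25] 0 3 (.front [4, 1, 1, 1, 1, 8, 16, 25] 0 8
    (.back [4, 1, 1, 1, 1, 8, 16] 4 3 (.back [4, 1, 1, 1, 1, 8] 0 6 (.back [4, 1, 1, 1, 1] 0 5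
    (.front [1, 1, 1, 1] 0 4 (.front [1, 1, 1] 0 1 (.front [1, 1] 0 1 .base
    (by decide) (by decide)) (by decide) (by decide)) (by decide) (by decide))
    (by decide) (by decide)) (by decide) (by decide)) (by decide) (by decide))
    (by decide) (by decide)) (by decide) (by decide)

theorem b_pair : 10 ≤ bb [57, 62] := by
  have hm : 10 ∈ {n | ∃ d, Reg d ∧ d.length = n ∧ Has d [57, 62]} :=
    ⟨_, Or.inr reg10, rfl, [62, 57], by decide, by decide⟩
  apply le_csInf ⟨_, hm⟩
  rintro n ⟨d, rfl | h1, rfl, h2⟩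
  · exact absurd h2 (not_has (by decide))
  · exact no_short (by decide) chk5762 h1 h2

theorem b_single : bb [62] ≤ 8 := by
  have hm : 8 ∈ {n | ∃ d, Reg d ∧ d.length = n ∧ Has d [62]} :=
    ⟨_, Or.inr reg8, rfl, [62], by decide, by decide⟩
  exact Nat.sInf_le hm

theorem result :
    ¬ ∀ k₁ k₂ : ℕ, 0 < k₁ → k₁ ≤ k₂ → bb [k₁, k₂] ≤ bb [k₂] + 1 := by
  intro h
  have h1 := h 57 62 (by decide) (by decide)
  have h2 := b_pair
  have h3 := b_single
  omega

end Pool.Agent.Results.MP_8dcfbf_co.PairGap
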